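import Mathlib

set_option autoImplicit false

/-!
# LCL problems on `ℤⁿ`, and the classes `BAIRE(ℤⁿ)` and `COMPUTABLE(ℤⁿ)`
-/

namespace Pool.Agent.H51I

/-- A locally checkable labelling problem on `ℤⁿ`: a finite window `W`, the labels `0, …, k - 1`, and the set `A` of the
allowed patterns. -/
structure LCL (n : ℕ) where
  W : Finset (Fin n → ℤ)
  k : ℕ
  A : Set (W → Fin k)

/-- `f` is a `P`-labelling: the pattern seen from every point is allowed. -/
def LCL.IsLabeling {n : ℕ} (P : LCL n) {X : Type*} [AddAction (Fin n → ℤ) X] (f : X → Fin P.k) : Prop :=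
  ∀ x : X, (fun w : P.W => f ((w : Fin n → ℤ) +ᵥ x)) ∈ P.A

/-- The action of `ℤⁿ` on `X` is free. -/
def Free (n : ℕ) (X : Type*) [AddAction (Fin n → ℤ) X] : Prop :=
  ∀ (γ : Fin n → ℤ) (x : X), γ +ᵥ x = x → γ = 0

/-- `P` is in `BAIRE(ℤⁿ)`: every free Borel action of `ℤⁿ` on a Polish space has a Baire measurable `P`-labelling. -/
def LCL.Baire.{u} {n : ℕ} (P : LCL n) : Prop :=
  ∀ (X : Type u) [TopologicalSpace X] [PolishSpace X] [MeasurableSpace X] [BorelSpace X] [AddAction (Fin n → ℤ) X],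
    (∀ γ : Fin n → ℤ, Measurable fun x : X => γ +ᵥ x) → Free n X →
      ∃ f : X → Fin P.k, (∀ i, BaireMeasurableSet (f ⁻¹' {i})) ∧ P.IsLabeling f

/-- A function on a set `X` of natural numbers is computable if it is the restriction of a partial computable function. -/
def CompOn {β : Type*} [Primcodable β] (X : Set ℕ) (f : X → β) : Prop :=
  ∃ g : ℕ →. β, Partrec g ∧ ∀ x : X, g x = Part.some (f x)

/-- `P` is in `COMPUTABLE(ℤⁿ)`: every free computable action of `ℤⁿ` on a computable set of natural numbers has a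
computable `P`-labelling. -/
def LCL.Comp {n : ℕ} (P : LCL n) : Prop :=
  ∀ (X : Set ℕ) [AddAction (Fin n → ℤ) X], ComputablePred (fun m => m ∈ X) →
    (∀ γ : Fin n → ℤ, CompOn X fun x : X => ((γ +ᵥ x : X) : ℕ)) → Free n X →
      ∃ f : X → Fin P.k, CompOn X f ∧ P.IsLabeling f

end Pool.Agent.H51I
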