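import Mathlib
import Pool.Agent.Lib.H51.Comp
import Pool.Agent.Lib.H51.QuadMain
import Pool.Agent.Lib.H51I.Defs

set_option autoImplicit false

namespace Pool.Agent.H51I

open Pool.Agent.H51 Filter

/-! ### Polish spaces in all universes -/

theorem baire_label_u.{u} {n : ℕ} {α : Type} {y : (Fin n → ℤ) → α} (hT : Toeplitz y)
    {X : Type u} [TopologicalSpace X] [PolishSpace X] [MeasurableSpace X] [BorelSpace X]
    {act : (Fin n → ℤ) → X → X} (h0 : ∀ x, act 0 x = x) (hadd : ∀ a b x, act (a + b) x = act a (act b x))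
    (hfree : ∀ γ x, act γ x = x → γ = 0) (hm : ∀ γ, Measurable (act γ)) :
    ∃ f : X → Win n α, (∀ w, BaireMeasurableSet (f ⁻¹' {w})) ∧
      ∀ x, ∃ s : (Fin n → ℤ) → (Fin n → ℤ),
        (∀ w w', nrm w ≤ 5 → nrm w' ≤ 5 → nrm (s w' - s w - (w' - w)) ≤ 1) ∧
        ∀ w, nrm w ≤ 5 → ∀ v : {v : Fin n → ℤ // nrm v ≤ 2}, f (act w x) v = y (s w + v.1) := by
  rcases isEmpty_or_nonempty X with hX | hX
  · refine ⟨fun x => (hX.false x).elim, fun w => ?_, fun x => (hX.false x).elim⟩
    rw [Set.eq_empty_of_isEmpty ((fun x : X => ((hX.false x).elim : Win n α)) ⁻¹' {w})]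
    exact isOpen_empty.baireMeasurableSet
  · obtain ⟨g, -, hgs⟩ := PolishSpace.exists_nat_nat_continuous_surjective X
    have hsm : Small.{0} X := small_of_surjective hgs
    obtain ⟨Y, ⟨e⟩⟩ := hsm.equiv_small
    let tY : TopologicalSpace Y := TopologicalSpace.induced e.symm inferInstance
    let h : Y ≃ₜ X := e.symm.toHomeomorphOfIsInducing ⟨rfl⟩
    have : PolishSpace Y := h.isClosedEmbedding.polishSpace
    let mY : MeasurableSpace Y := borel Y
    have : BorelSpace Y := ⟨rfl⟩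
    have hhe : ∀ z, h z = e.symm z := fun z => rfl
    have hhs : ∀ x, h.symm x = e x := fun x => rfl
    have hA' : IsFree (fun γ (z : Y) => h.symm (act γ (h z))) :=
      ⟨fun z => by simp [h0], fun a b z => by simp [hadd], fun γ z hz => by
        apply hfree γ (h z)
        have := congrArg h hz
        simpa using this⟩
    have hm' : ∀ γ, Measurable (fun z : Y => h.symm (act γ (h z))) := fun γ =>
      h.symm.measurable.comp ((hm γ).comp h.measurable)
    obtain ⟨f, hf1, hf2⟩ := baire_label hT hA' hm'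
    refine ⟨fun x => f (h.symm x), fun w => ?_, fun x => ?_⟩
    · have h1 : BaireMeasurableSet (f ⁻¹' {w}) := BaireMeasurableSet.iff_residualEq_isOpen.2 (hf1 w)
      exact h1.preimage h.symm.continuous h.symm.isOpenMap
    · obtain ⟨s, hs1, hs2⟩ := hf2 (h.symm x)
      refine ⟨s, hs1, fun w hw v => ?_⟩
      have := hs2 w hw v
      simpa using this

/-! ### The embedding of `ℤᵐ` into `ℤⁿ` -/

section emb

variable {m n : ℕ}

/-- Extension by zero. -/
def emb (m n : ℕ) (g : Fin m → ℤ) : Fin n → ℤ := fun j => if h : (j : ℕ) < m then g ⟨j, h⟩ else 0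

theorem emb_add (a b : Fin m → ℤ) : emb m n (a + b) = emb m n a + emb m n b := by
  funext j
  simp only [emb, Pi.add_apply]
  split_ifs <;> simp

theorem emb_zero : emb m n 0 = 0 := by
  funext j
  simp [emb]

theorem emb_injective (hmn : m ≤ n) : Function.Injective (emb m n) := by
  intro a b hab
  funext i
  have := congrFun hab ⟨i, lt_of_lt_of_le i.2 hmn⟩
  simpa [emb] using this

theorem computable_emb : Computable (emb m n) := by
  apply Primrec.to_comp
  apply primrec_pi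
  intro j
  by_cases h : (j : ℕ) < m
  · exact (primrec_app Primrec.id ⟨j, h⟩).of_eq fun g => by simp [emb, h]
  · exact (Primrec.const 0).of_eq fun g => by simp [emb, h]

end emb

/-! ### The problem -/

/-- The problem on `ℤⁿ` which asks for the pattern `s ↦ y (s + ·)` along the copy of `ℤᵐ`. -/
noncomputable def prob {m k : ℕ} {α : Type} (n : ℕ) (y : (Fin m → ℤ) → α) (e : Win m α ≃ Fin k) : LCL n where
  W := (finite_ball (n := m) 5).toFinset.image (emb m n)
  k := k
  A := {Q | ∃ s : (Fin m → ℤ) → (Fin m → ℤ),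
    (∀ w w', nrm w ≤ 5 → nrm w' ≤ 5 → nrm (s w' - s w - (w' - w)) ≤ 1) ∧
    ∀ w : Fin m → ℤ, nrm w ≤ 5 → ∀ hw : emb m n w ∈ (finite_ball (n := m) 5).toFinset.image (emb m n),
      ∀ v : {v : Fin m → ℤ // nrm v ≤ 2}, e.symm (Q ⟨emb m n w, hw⟩) v = y (s w + v.1)}

theorem prob_baire.{u} {m n k : ℕ} (hmn : m ≤ n) {α : Type} {y : (Fin m → ℤ) → α} (hT : Toeplitz y)
    (e : Win m α ≃ Fin k) : (prob n y e).Baire.{u} := by
  intro X _ _ _ _ _ hmeas hfree
  obtain ⟨f, hf1, hf2⟩ := baire_label_u (act := fun (γ : Fin m → ℤ) (x : X) => emb m n γ +ᵥ x) hT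
    (fun x => by simp only [emb_zero, zero_vadd]) (fun a b x => by simp only [emb_add, add_vadd])
    (fun γ x hx => emb_injective hmn ((hfree _ _ hx).trans emb_zero.symm)) (fun γ => hmeas (emb m n γ))
  have hpre : ∀ i : Fin k, (fun x => e (f x)) ⁻¹' {i} = f ⁻¹' {e.symm i} := by
    intro i
    ext x
    simp only [Set.mem_preimage, Set.mem_singleton_iff]
    rw [Equiv.eq_symm_apply]
  refine ⟨fun x => e (f x), fun i => ?_, fun x => ?_⟩
  · exact (hpre i).symm ▸ hf1 (e.symm i)
  · obtain ⟨s, h1, h2⟩ := hf2 x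
    refine ⟨s, h1, fun w hw hw' v => ?_⟩
    simp only [Equiv.symm_apply_apply]
    exact h2 w hw v

theorem prob_not {M n k : ℕ} {S : Sys (Fin M)} {β : S.Γ → Bool} {i0 : Fin M}
    (hno : ∀ F, S.Sol F → ¬ Computable (fun n => β (F (fun i => if i = i0 then n else 0))))
    {F0 : (Fin M → ℕ) → S.Γ} (hF0 : S.Sol F0) (e : Win (M + 1) (Lab M S.Γ) ≃ Fin k) :
    ¬ ∃ f : (Fin n → ℤ) → Fin k, Computable f ∧
      ∀ x : Fin n → ℤ, (fun w : (prob n (labI F0) e).W => f (w + x)) ∈ (prob n (labI F0) e).A := by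
  rintro ⟨f, hf, hfA⟩
  apply no_computable hno hF0 e (fun g => f (emb (M + 1) n g)) (hf.comp computable_emb)
  intro g
  obtain ⟨s, h1, h2⟩ := hfA (emb (M + 1) n g)
  refine ⟨s, h1, fun w hw v => ?_⟩
  have hw' : emb (M + 1) n w ∈ (finite_ball (n := M + 1) 5).toFinset.image (emb (M + 1) n) :=
    Finset.mem_image_of_mem _ (by simpa using hw)
  have := h2 w hw hw' v
  simp only [← emb_add] at this
  rw [add_comm g w]
  exact this

/-- No computable labelling of the translation action: the problem is not in `COMPUTABLE(ℤⁿ)`. -/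
theorem not_comp {n : ℕ} {P : LCL n}
    (h : ¬ ∃ f : (Fin n → ℤ) → Fin P.k, Computable f ∧ ∀ x : Fin n → ℤ, (fun w : P.W => f (w + x)) ∈ P.A) :
    ¬ P.Comp := by
  intro hP
  let X : Set ℕ := Set.range (encZ : (Fin n → ℤ) → ℕ)
  let E : (Fin n → ℤ) ≃ X := Equiv.ofInjective encZ encZ_injective
  have hE : ∀ g, ((E g : X) : ℕ) = encZ g := fun g => rfl
  let _inst : AddAction (Fin n → ℤ) X :=
    { vadd := fun γ x => E (γ + E.symm x)
      zero_vadd := fun x => by
        change E (0 + E.symm x) = x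
        rw [zero_add, Equiv.apply_symm_apply]
      add_vadd := fun a b x => by
        change E (a + b + E.symm x) = E (a + E.symm (E (b + E.symm x)))
        rw [Equiv.symm_apply_apply, add_assoc] }
  have hv : ∀ (γ : Fin n → ℤ) (x : X), γ +ᵥ x = E (γ + E.symm x) := fun γ x => rfl
  obtain ⟨f, ⟨g, hg, hgf⟩, hfA⟩ := hP X computablePred_encZ (by
    intro γ
    refine ⟨fun m => Part.some (actZ γ m), computable_actZ γ, fun x => ?_⟩
    obtain ⟨v, rfl⟩ := E.surjective x
    change Part.some (actZ γ (encZ v)) = Part.some ((E (γ + E.symm (E v)) : X) : ℕ)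
    rw [Equiv.symm_apply_apply, hE, actZ_encZ]) (by
    intro γ x hx
    rw [hv] at hx
    have := E.symm.injective.eq_iff.2 hx
    rw [Equiv.symm_apply_apply] at this
    simpa using this)
  apply h
  refine ⟨fun v => f (E v), ?_, fun x => ?_⟩
  · have h1 : Partrec fun v : Fin n → ℤ => g (encZ v) := hg.comp computable_encZ
    exact h1.of_eq fun v => by rw [← hE, hgf]; rfl
  · have := hfA (E x)
    simpa only [hv, Equiv.symm_apply_apply] using this

theorem main.{u} : ∃ N : ℕ, 2 ≤ N ∧ ∀ n, N ≤ n → ∃ P : LCL n, P.Baire.{u} ∧ ¬ P.Comp ∧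
    ¬ ∃ f : (Fin n → ℤ) → Fin P.k, Computable f ∧ ∀ x : Fin n → ℤ, (fun w : P.W => f (w + x)) ∈ P.A := by
  obtain ⟨M, S, β, i0, ⟨F0, hF0⟩, hno⟩ := exists_sys
  have hM : 2 ≤ M + 1 := by have := i0.2; omega
  have hfinΓ : Finite S.Γ := S.fin
  have hfinball : Finite {v : Fin (M + 1) → ℤ // nrm v ≤ 2} := (finite_ball 2).to_subtype
  obtain ⟨k, ⟨e⟩⟩ := Finite.exists_equiv_fin (Win (M + 1) (Lab M S.Γ))
  refine ⟨M + 1, hM, fun n hn => ⟨prob n (labI F0) e, ?_, ?_, ?_⟩⟩
  · exact prob_baire hn (fun N => labI_toeplitz F0 N) e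
  · exact not_comp (prob_not hno hF0 e)
  · exact prob_not hno hF0 e

end Pool.Agent.H51I
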